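import Pool.Agent.N210.FV.Thm

/-!
# Cuspidal representations of `GL(2)` with few Hecke eigenvalues

Let `π` be a cuspidal automorphic representation of `GL_2` over `ℚ` with unitary central character `ω`, with
no condition on `π_∞`: holomorphic forms and Maass forms of every weight and nebentypus. Let `S` be a finite
set of primes containing the ramified ones, `α_p, β_p` the Satake parameters, `a_p = α_p + β_p`,
`t_p = α_p / β_p`; unitarity gives `|a_p|² = a_p² / ω(p) = t_p + t_p⁻¹ + 2`.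

**Theorem.** If `Sym⁴ π` is cuspidal, i.e. `π` is not dihedral, tetrahedral or octahedral, then `|a_p|` takes at
least five different values, and this remains so when any finite set of primes is removed.

Five is best possible: for icosahedral `π` the values of `|a_p|` are `2, 0, 1, (√5 ± 1)/2`. Contrapositive: if
`|a_p|` takes at most four values outside some finite set of primes then `π` is dihedral, tetrahedral or
octahedral, so it belongs to a two-dimensional representation of the Weil group of `ℚ` with soluble image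
(Kim-Shahidi). No integrality or algebraicity of the `a_p`, no Ramanujan conjecture and no condition at
infinity is assumed; in Sarnak's theorem on Maass forms with integral coefficients boundedness of the `a_p`
leaves only the values `0, 1, 2` of `|a_p|`.

The proof uses the functions `L_j(s) = L^S(s, A^j π)`, `A^j π = Sym^{2j} π ⊗ ω^{-j}`, `1 ≤ j ≤ 4`, with parameters
`t_p^m`, `-j ≤ m ≤ j`. The structure `AdjointL` lists what is used of each of them; all of it is known if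
`Sym⁴ π` is cuspidal:

* `L_1`, `L_2` are entire (Gelbart-Jacquet, Kim: `D = 1`), `L_3 = N/D` with `N = (s-1) L^S(s, Sym³ × Sym³~)` and
  `D = (s-1) ζ^S(s) L_1(s) L_2(s)`, `L_4 = N/D` with `N = (s-1) L^S(s, Sym⁴ × Sym⁴~)` and
  `D = (s-1) L^S(s, Sym³ × Sym³~)` (Kim-Shahidi), where the Rankin-Selberg functions are holomorphic except for a
  simple pole at `s = 1` (Jacquet, Piatetski-Shapiro, Shalika, Moeglin, Waldspurger); all are of order one;
* convergence of the Euler products for `Re s > 1`, values `≠ 0, ∞` at `s = 1`, functional equation with gamma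
  factors `∏ Γ_ℝ(s + m)` and, at the primes of `S`, with products of factors `1 - b p^{-s}`;
* `|t_p^m| < p` for `|m| ≤ 4` (Jacquet, Shalika);
* `ζ L_1 L_2 L_3 L_4`, which is `L(s, Sym⁴ × Sym⁴~)` up to factors at `S`, and `ζ L_2 L_4`, which is
  `L(s, Sym² A² π)` up to factors at `S` (Bump-Ginzburg, Takeda), have no poles in the interval `(0, 1)`.
-/

set_option autoImplicit false

open Filter Topology

namespace Pool.Agent.Results.MP_ef641d_nt.FewHeckeEigenvalues

/-- `∏_{m ∈ μ} Γ_ℝ(s + m)⁻¹`, `Γ_ℝ(s) = π^{-s/2} Γ(s/2)` -/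
noncomputable def invGamma (μ : List ℂ) (s : ℂ) : ℂ :=
  (μ.map fun m => (Complex.Gammaℝ (s + m))⁻¹).prod

/-- `∏_{(p, b) ∈ l} (1 - b p^{-s})` -/
noncomputable def finEuler (l : List (ℕ × ℂ)) (s : ℂ) : ℂ :=
  (l.map fun x => 1 - x.2 * (x.1 : ℂ) ^ (-s)).prod

/-- What is used of the `L`-function `N/D` with the Euler product
`∏_{p ∉ S} ∏_{-j ≤ m ≤ j} (1 - t_p^m p^{-s})⁻¹`. -/
structure AdjointL (S : Finset ℕ) (t : ℕ → ℂ) (j : ℕ) (N D : ℂ → ℂ) : Prop where
  /-- `N` is entire -/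
  entire_N : Differentiable ℂ N
  /-- `D` is entire -/
  entire_D : Differentiable ℂ D
  /-- `N` and `D` are of order at most `3/2` -/
  order : ∃ C : ℝ, ∀ s, ‖N s‖ ≤ Real.exp (C * (1 + ‖s‖) ^ (3 / 2 : ℝ)) ∧
    ‖D s‖ ≤ Real.exp (C * (1 + ‖s‖) ^ (3 / 2 : ℝ))
  /-- `D` has no zeros in `Re s > 1` -/
  ne_zero : ∀ s : ℂ, 1 < s.re → D s ≠ 0
  /-- the partial Euler products converge to `N/D` in `Re s > 1` -/
  euler : ∀ s : ℂ, 1 < s.re → Tendsto (fun X : ℕ =>
    ∏ p ∈ (Finset.range X).filter (fun p => p.Prime ∧ p ∉ S),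
      ∏ m ∈ Finset.Icc (-(j : ℤ)) j, (1 - t p ^ m * (p : ℂ) ^ (-s))⁻¹) atTop (𝓝 (N s / D s))
  /-- functional equation: with `Λ(s) = q^s ∏ Γ_ℝ(s + m) · finEuler l' s / finEuler l s · N s / D s` it says
  `Λ(s) = ε Λ(1 - s)` -/
  functional : ∃ (μ : List ℂ) (l l' : List (ℕ × ℂ)) (q : ℝ) (ε : ℂ), 0 < q ∧ ε ≠ 0 ∧
    (∀ x ∈ l, x.1.Prime ∧ x.1 ∈ S) ∧ (∀ x ∈ l', x.1.Prime ∧ x.1 ∈ S) ∧
    ∀ s, (q : ℂ) ^ s * invGamma μ (1 - s) * finEuler l (1 - s) * finEuler l' s * (N s * D (1 - s)) =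
      ε * (q : ℂ) ^ (1 - s) * invGamma μ s * finEuler l s * finEuler l' (1 - s) * (N (1 - s) * D s)
  /-- `N/D` is regular and not zero at `s = 1` -/
  at_one : ∃ c : ℂ, c ≠ 0 ∧ Tendsto (fun s => N s / D s) (𝓝[≠] 1) (𝓝 c)

/-- **At least five values of `|a_p|`.** -/
theorem result {S : Finset ℕ} {a t : ℕ → ℂ} {N D : ℕ → ℂ → ℂ}
    (ht : ∀ p : ℕ, p.Prime → p ∉ S → t p ≠ 0)
    (ha : ∀ p : ℕ, p.Prime → p ∉ S → t p + (t p)⁻¹ + 2 = ((‖a p‖ ^ 2 : ℝ) : ℂ))
    (hbound : ∀ p : ℕ, p.Prime → p ∉ S → ∀ m ∈ Finset.Icc (-4 : ℤ) 4, ‖t p ^ m‖ < p)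
    (hL : ∀ j ∈ Finset.Icc 1 4, AdjointL S t j (N j) (D j))
    (hRankinSelberg : ∀ x : ℝ, 0 < x → x < 1 → ∃ c, Tendsto (fun s => riemannZeta s *
      ∏ j ∈ Finset.Icc 1 4, (N j s / D j s)) (𝓝[≠] (x : ℂ)) (𝓝 c))
    (hSymmetricSquare : ∀ x : ℝ, 0 < x → x < 1 → ∃ c, Tendsto (fun s => riemannZeta s *
      (N 2 s / D 2 s * (N 4 s / D 4 s))) (𝓝[≠] (x : ℂ)) (𝓝 c))
    (T : Finset ℕ) :
    5 ≤ ((fun p => ‖a p‖) '' {p : ℕ | p.Prime ∧ p ∉ T}).encard := by
  classical
  by_contra hcon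
  push Not at hcon
  have hfin : ((fun p => ‖a p‖) '' {p : ℕ | p.Prime ∧ p ∉ T}).Finite :=
    Set.finite_of_encard_le_coe (k := 5) hcon.le
  have hcard : hfin.toFinset.card ≤ 4 := by
    rw [hfin.encard_eq_coe_toFinset_card] at hcon
    have h1 : hfin.toFinset.card < 5 := by exact_mod_cast hcon
    omega
  set V : Finset ℝ := hfin.toFinset.image fun r => r ^ 2 with hV
  have hinf := Pool.Agent.N210.FV.main (y := fun p => ‖a p‖ ^ 2) ht ha hbound
    (fun j hj => by
      have h := hL j hj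
      exact ⟨h.entire_N, h.entire_D, h.order, h.ne_zero, h.euler, h.functional, h.at_one⟩)
    hRankinSelberg hSymmetricSquare V (Finset.card_image_le.trans hcard)
  obtain ⟨p, hp, hpT⟩ := hinf.exists_notMem_finset T
  apply hp.2.2
  rw [hV]
  refine Finset.mem_image_of_mem _ ?_
  rw [Set.Finite.mem_toFinset]
  exact ⟨p, ⟨hp.1, hpT⟩, rfl⟩

end Pool.Agent.Results.MP_ef641d_nt.FewHeckeEigenvalues
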