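import Pool.Agent.N60.GD.Main

/-!
# MP_ef641d_nt: descent of the Galois representations attached to a family of Satake classes

Let `k` be an algebraically closed field of characteristic zero which is a Hausdorff topological
field (for instance an algebraic closure of `ℚ_ℓ`), let `n ≥ 1`, and for every prime `p` outside a
set `S` of density zero let `a p` be a conjugacy class of `GL_n(k)` (for instance the Satake class
of `π_p`, where `π` is an algebraic cuspidal representation of `GL_n(𝔸_ℚ)`, and `S` the set of `ℓ`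
and of the ramified primes of `π`).

Fix a finite Galois extension `L` of `ℚ`. For a field `F ⊆ L`, a representation of `G_F` is
*attached to the family over `F`* (`AttachedOver`) if it is continuous, irreducible on `G_L`,
unramified above all `p ∉ S`, and maps every element of `G_F` which is a geometric Frobenius element
above `p ∉ S` in `G_ℚ` to the class `a p` (this is a condition at the places of residue degree one
of `F` only).

**Theorem.**

1. (general descent) Let `F i` be subfields of `L` such that every element of `G_ℚ` fixes a conjugate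
   of some `F i`, and such that every prime `q` which divides all the degrees `[F i : ℚ]` does not
   divide `n`, and that if there is such a `q`, there is a continuous character of `G_ℚ` attached to
   the family of the determinants. Then representations `ρ i` attached to the family over the fields
   `F i` are restrictions (up to conjugation) of one representation of `G_ℚ` attached to the family.
   Nothing is assumed on the relation of the `ρ i`, and the fields `F i` need not be normal.
2. (Sylow and cyclic subgroups) There is a representation of `G_ℚ` attached to the family if and only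
   if there is one over every field `F ⊆ L` such that `L/F` is cyclic or of prime power degree.
3. (cyclic subgroups) If `n` is prime to `[L : ℚ]` and there is a continuous character attached to
   the determinants (which is known for algebraic `π`), then there is a representation of `G_ℚ`
   attached to the family if and only if there is one over every field `F ⊆ L` such that `L/F` is
   cyclic.
4. The representation of `G_ℚ` attached to the family is unique up to conjugation, and its
   restriction to every `F ⊆ L` is attached to the family over `F`.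
-/

set_option autoImplicit false

namespace Pool.Agent.Results.MP_ef641d_nt.GaloisDescent

open NumberField Filter Topology Matrix Pool.Agent.N60.GD

/-- the absolute Galois group of `ℚ` -/
abbrev GalQ : Type := AlgebraicClosure ℚ ≃ₐ[ℚ] AlgebraicClosure ℚ

/-- the absolute Galois group of `F ⊆ ℚ̄`, as a subgroup of `GalQ` -/
noncomputable abbrev GalOver (F : IntermediateField ℚ (AlgebraicClosure ℚ)) : Subgroup GalQ := F.fixingSubgroup

/-- a place of `ℚ̄` above `p`: a homomorphism from the ring of all algebraic integers to an algebraic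
closure of the field with `p` elements -/
abbrev PlaceAbove (p : ℕ) [Fact p.Prime] : Type :=
  𝓞 (AlgebraicClosure ℚ) →+* AlgebraicClosure (ZMod p)

/-- `σ` is in the inertia group of the place `Ψ` -/
def InInertia {p : ℕ} [Fact p.Prime] (Ψ : PlaceAbove p) (σ : GalQ) : Prop :=
  ∀ x : 𝓞 (AlgebraicClosure ℚ), Ψ (σ • x) = Ψ x

/-- `σ` is a geometric Frobenius element at the place `Ψ`: it induces the inverse of
`x ↦ x ^ p` on the residue field -/
def GeomFrob {p : ℕ} [Fact p.Prime] (Ψ : PlaceAbove p) (σ : GalQ) : Prop :=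
  ∀ x : 𝓞 (AlgebraicClosure ℚ), Ψ (σ • x) ^ p = Ψ x

/-- the primes in `S` have density zero among the primes -/
def PrimesOfDensityZero (S : Set ℕ) : Prop :=
  Tendsto (fun N : ℕ => ({p : ℕ | p ≤ N ∧ p.Prime ∧ p ∈ S}.ncard : ℝ) /
    (Nat.primeCounting N : ℝ)) atTop (𝓝 0)

variable {k : Type*} [Field k] [TopologicalSpace k] {n : ℕ}

/-- the representation `ρ` of `G_F` is attached to the family `a` of classes over `F`, and it is
irreducible on `G_L` -/
structure AttachedOver (F L : IntermediateField ℚ (AlgebraicClosure ℚ)) (S : Set ℕ)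
    (a : ℕ → GL (Fin n) k) (ρ : GalOver F →* GL (Fin n) k) : Prop where
  cont : Continuous ρ
  irreducible : 0 < n ∧ ∀ W : Submodule k (Fin n → k),
    (∀ σ : GalOver F, (σ : GalQ) ∈ GalOver L → ∀ w ∈ W,
      (ρ σ : Matrix (Fin n) (Fin n) k).mulVec w ∈ W) → W = ⊥ ∨ W = ⊤
  unramified : ∀ (p : ℕ) [Fact p.Prime], p ∉ S → ∀ (Ψ : PlaceAbove p) (σ : GalOver F),
    InInertia Ψ σ → ρ σ = 1
  frob : ∀ (p : ℕ) [Fact p.Prime], p ∉ S → ∀ (Ψ : PlaceAbove p) (σ : GalOver F),
    GeomFrob Ψ σ → IsConj (a p) (ρ σ)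

/-- the representation `ρ` of the absolute Galois group of `ℚ` is attached to the family `a` of
classes, and it is irreducible on `G_L` -/
structure Attached (L : IntermediateField ℚ (AlgebraicClosure ℚ)) (S : Set ℕ)
    (a : ℕ → GL (Fin n) k) (ρ : GalQ →* GL (Fin n) k) : Prop where
  cont : Continuous ρ
  irreducible : 0 < n ∧ ∀ W : Submodule k (Fin n → k),
    (∀ σ ∈ GalOver L, ∀ w ∈ W, (ρ σ : Matrix (Fin n) (Fin n) k).mulVec w ∈ W) → W = ⊥ ∨ W = ⊤
  unramified : ∀ (p : ℕ) [Fact p.Prime], p ∉ S → ∀ (Ψ : PlaceAbove p) (σ : GalQ),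
    InInertia Ψ σ → ρ σ = 1
  frob : ∀ (p : ℕ) [Fact p.Prime], p ∉ S → ∀ (Ψ : PlaceAbove p) (σ : GalQ),
    GeomFrob Ψ σ → IsConj (a p) (ρ σ)

/-- there is a continuous character of the absolute Galois group of `ℚ` attached to the
determinants of the family `a` -/
def DetAttached (S : Set ℕ) (a : ℕ → GL (Fin n) k) : Prop :=
  ∃ δ : GalQ →* kˣ, Continuous δ ∧ ∀ (p : ℕ) [Fact p.Prime], p ∉ S →
    ∀ (Ψ : PlaceAbove p) (σ : GalQ), GeomFrob Ψ σ → δ σ = Matrix.GeneralLinearGroup.det (a p)

section proofs

variable [IsAlgClosed k] [CharZero k] [IsTopologicalRing k] [T2Space k]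

omit [IsAlgClosed k] [CharZero k] [IsTopologicalRing k] [T2Space k] in
/-- restriction -/
theorem restrict {F L : IntermediateField ℚ (AlgebraicClosure ℚ)} (hFL : F ≤ L) {S : Set ℕ}
    {a : ℕ → GL (Fin n) k} {ρ : GalQ →* GL (Fin n) k} (h : Attached L S a ρ) :
    AttachedOver F L S a (ρ.comp (GalOver F).subtype) where
  cont := h.cont.comp continuous_subtype_val
  irreducible := ⟨h.irreducible.1, fun W hW => h.irreducible.2 W fun σ hσ =>
    hW ⟨σ, IntermediateField.fixingSubgroup_antitone hFL hσ⟩ hσ⟩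
  unramified := fun p _ hp Ψ σ hσ => h.unramified p hp Ψ σ hσ
  frob := fun p _ hp Ψ σ hσ => h.frob p hp Ψ σ hσ

theorem descent {ι : Type} (F : ι → IntermediateField ℚ (AlgebraicClosure ℚ))
    (L : IntermediateField ℚ (AlgebraicClosure ℚ)) [FiniteDimensional ℚ L] [Normal ℚ L]
    (hFL : ∀ i, F i ≤ L)
    (hcov : ∀ σ : GalQ, ∃ i, ∃ τ : GalQ, ∀ x ∈ F i, σ (τ x) = τ x)
    (S : Set ℕ) (hS : PrimesOfDensityZero S) (a : ℕ → GL (Fin n) k)
    (hq : ∀ q : ℕ, q.Prime → (∀ i, q ∣ Module.finrank ℚ (F i)) → ¬ q ∣ n ∧ DetAttached S a)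
    (ρ : ∀ i, GalOver (F i) →* GL (Fin n) k) (hρ : ∀ i, AttachedOver (F i) L S a (ρ i)) :
    ∃ T : GalQ →* GL (Fin n) k, Attached L S a T ∧
      ∀ i, ∃ Q : GL (Fin n) k, ∀ σ : GalOver (F i), T σ = Q⁻¹ * ρ i σ * Q := by
  obtain ⟨T, hT1, hT2, hT3, hT4⟩ := glue_galois F L hFL hcov S hS a hq ρ (fun i => (hρ i).cont)
    (fun i => (hρ i).irreducible)
    (fun i p _ hp Ψ => ⟨(hρ i).unramified p hp Ψ, (hρ i).frob p hp Ψ⟩)
  exact ⟨T, ⟨hT1, ⟨hT2.1, fun W hW => hT2.2 W hW⟩, fun p _ hp Ψ => (hT4 p hp Ψ).1,
    fun p _ hp Ψ => (hT4 p hp Ψ).2⟩, hT3⟩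

theorem unique (L : IntermediateField ℚ (AlgebraicClosure ℚ)) (S : Set ℕ)
    (hS : PrimesOfDensityZero S) (a : ℕ → GL (Fin n) k) {T T' : GalQ →* GL (Fin n) k}
    (h : Attached L S a T) (h' : Attached L S a T') :
    ∃ P : GL (Fin n) k, ∀ σ, T' σ = P * T σ * P⁻¹ := by
  obtain ⟨P, hP⟩ := conj_of_trace (⊤ : Subgroup GalQ) (f := T) (f' := T')
    (fun u _ v _ => map_mul T u v) (fun u _ v _ => map_mul T' u v)
    ⟨h.irreducible.1, fun W hW => h.irreducible.2 W fun σ _ => hW σ trivial⟩
    ⟨h'.irreducible.1, fun W hW => h'.irreducible.2 W fun σ _ => hW σ trivial⟩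
    (fun u _ => eq_on_open (W := Set.univ) hS (continuous_trace h.cont) (continuous_trace h'.cont)
      isOpen_univ (fun p _ Ψ φ hpS hφ _ =>
        (trace_eq_of_isConj (h.frob p hpS Ψ φ hφ)).symm.trans
          (trace_eq_of_isConj (h'.frob p hpS Ψ φ hφ))) u trivial)
  exact ⟨P, fun σ => hP σ trivial⟩

end proofs

section sylow

variable (L : IntermediateField ℚ (AlgebraicClosure ℚ)) [FiniteDimensional ℚ L] [Normal ℚ L]

/-- the fields `F ⊆ L` such that `L/F` is cyclic cover the Galois group -/
theorem cyclic_cover (σ : GalQ) : ∃ F : IntermediateField ℚ L, IsCyclic Gal(L/F) ∧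
    ∀ x ∈ IntermediateField.lift F, σ x = x := by
  set g : Gal(L/ℚ) := AlgEquiv.restrictNormalHom L σ with hg
  set F : IntermediateField ℚ L := IntermediateField.fixedField (Subgroup.zpowers g) with hF
  have e := IntermediateField.subgroupEquivAlgEquiv (Subgroup.zpowers g)
  refine ⟨F, e.isCyclic.1 inferInstance, ?_⟩
  intro x hx
  obtain ⟨y, hy, rfl⟩ := hx
  have h1 : g y = y := by
    have := hy ⟨g, Subgroup.mem_zpowers g⟩
    exact this
  have h2 := AlgEquiv.restrictNormal_commutes σ L y
  have h3 : (AlgEquiv.restrictNormal σ L) y = y := h1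
  rw [h3] at h2
  exact h2.symm

/-- for every prime `q` there is a field `F ⊆ L` whose degree is not divisible by `q` and such that
`L/F` is cyclic or of prime power degree -/
theorem sylow_field (q : ℕ) (hq : q.Prime) : ∃ F : IntermediateField ℚ L,
    (IsCyclic Gal(L/F) ∨ IsPrimePow (Module.finrank F L)) ∧
      ¬ q ∣ Module.finrank ℚ (IntermediateField.lift F) := by
  have : Fact q.Prime := ⟨hq⟩
  have hG : IsGalois ℚ L := ⟨⟩
  obtain ⟨P⟩ : Nonempty (Sylow q Gal(L/ℚ)) := inferInstance
  set F : IntermediateField ℚ L := IntermediateField.fixedField (P : Subgroup Gal(L/ℚ)) with hF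
  have e := IntermediateField.subgroupEquivAlgEquiv (P : Subgroup Gal(L/ℚ))
  have h2 : Module.finrank F L = Nat.card P := IntermediateField.finrank_fixedField_eq_card _
  have h5 : Module.finrank ℚ (IntermediateField.lift F) = Module.finrank ℚ F :=
    (IntermediateField.liftAlgEquiv F).toLinearEquiv.finrank_eq.symm
  have h1 : Module.finrank ℚ F * Module.finrank F L = Module.finrank ℚ L :=
    Module.finrank_mul_finrank ℚ F L
  have h3 : Nat.card Gal(L/ℚ) = Module.finrank ℚ L := IsGalois.card_aut_eq_finrank ℚ L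
  have h4 : (P : Subgroup Gal(L/ℚ)).index * Nat.card P = Nat.card Gal(L/ℚ) :=
    Subgroup.index_mul_card _
  have h6 : Module.finrank ℚ F = (P : Subgroup Gal(L/ℚ)).index := by
    rw [h2] at h1
    exact Nat.eq_of_mul_eq_mul_right Nat.card_pos (by rw [h1, h4, h3])
  refine ⟨F, ?_, ?_⟩
  · obtain ⟨m, hm⟩ := IsPGroup.iff_card.1 P.isPGroup'
    rcases Nat.eq_zero_or_pos m with hm0 | hm0
    · left
      rw [hm0, pow_zero] at hm
      have : Subsingleton (P : Subgroup Gal(L/ℚ)) := (Nat.card_eq_one_iff_unique.1 hm).1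
      exact e.isCyclic.1 inferInstance
    · right
      rw [h2, hm]
      exact (Nat.prime_iff.1 hq).isPrimePow.pow hm0.ne'
  · rw [h5, h6]
    exact Sylow.not_dvd_index P

end sylow

variable [IsAlgClosed k] [CharZero k] [IsTopologicalRing k] [T2Space k]

/-- **Descent of Galois representations attached to a family of Satake classes.** -/
theorem result (L : IntermediateField ℚ (AlgebraicClosure ℚ)) [FiniteDimensional ℚ L]
    [Normal ℚ L] (S : Set ℕ) (hS : PrimesOfDensityZero S) (a : ℕ → GL (Fin n) k) :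
    -- 1. general descent
    (∀ (ι : Type) (F : ι → IntermediateField ℚ (AlgebraicClosure ℚ)), (∀ i, F i ≤ L) →
      (∀ σ : GalQ, ∃ i, ∃ τ : GalQ, ∀ x ∈ F i, σ (τ x) = τ x) →
      (∀ q : ℕ, q.Prime → (∀ i, q ∣ Module.finrank ℚ (F i)) → ¬ q ∣ n ∧ DetAttached S a) →
      ∀ ρ : ∀ i, GalOver (F i) →* GL (Fin n) k, (∀ i, AttachedOver (F i) L S a (ρ i)) →
      ∃ T : GalQ →* GL (Fin n) k, Attached L S a T ∧
        ∀ i, ∃ Q : GL (Fin n) k, ∀ σ : GalOver (F i), T σ = Q⁻¹ * ρ i σ * Q) ∧
    -- 2. Sylow and cyclic subgroups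
    ((∃ T : GalQ →* GL (Fin n) k, Attached L S a T) ↔
      ∀ F : IntermediateField ℚ L, (IsCyclic Gal(L/F) ∨ IsPrimePow (Module.finrank F L)) →
        ∃ ρ : GalOver (IntermediateField.lift F) →* GL (Fin n) k,
          AttachedOver (IntermediateField.lift F) L S a ρ) ∧
    -- 3. cyclic subgroups
    (n.Coprime (Module.finrank ℚ L) → DetAttached S a →
      ((∃ T : GalQ →* GL (Fin n) k, Attached L S a T) ↔
        ∀ F : IntermediateField ℚ L, IsCyclic Gal(L/F) →
          ∃ ρ : GalOver (IntermediateField.lift F) →* GL (Fin n) k,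
            AttachedOver (IntermediateField.lift F) L S a ρ)) ∧
    -- 4. uniqueness and restriction
    (∀ T T' : GalQ →* GL (Fin n) k, Attached L S a T → Attached L S a T' →
      ∃ P : GL (Fin n) k, ∀ σ, T' σ = P * T σ * P⁻¹) ∧
    (∀ T : GalQ →* GL (Fin n) k, Attached L S a T →
      ∀ F : IntermediateField ℚ (AlgebraicClosure ℚ), F ≤ L →
        AttachedOver F L S a (T.comp (GalOver F).subtype)) := by
  refine ⟨fun ι F hFL hcov hq ρ hρ => descent F L hFL hcov S hS a hq ρ hρ, ⟨?_, ?_⟩,
    fun hco hdet => ⟨?_, ?_⟩, fun T T' h h' => unique L S hS a h h', fun T h F hF => restrict hF h⟩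
  · rintro ⟨T, hT⟩ F -
    exact ⟨_, restrict (IntermediateField.lift_le F) hT⟩
  · intro h
    let ι : Type := {F : IntermediateField ℚ L //
      IsCyclic Gal(L/F) ∨ IsPrimePow (Module.finrank F L)}
    choose ρ hρ using h
    obtain ⟨T, hT, -⟩ := descent (ι := ι) (fun i => IntermediateField.lift i.1) L
      (fun i => IntermediateField.lift_le i.1) (fun σ => by
        obtain ⟨F, hF, hσ⟩ := cyclic_cover L σ
        exact ⟨⟨F, Or.inl hF⟩, 1, fun x hx => hσ x hx⟩) S hS a (fun q hq hdiv => by
        obtain ⟨F, hF, hqF⟩ := sylow_field L q hq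
        exact absurd (hdiv ⟨F, hF⟩) hqF) (fun i => ρ i.1 i.2) (fun i => hρ i.1 i.2)
    exact ⟨T, hT⟩
  · rintro ⟨T, hT⟩ F -
    exact ⟨_, restrict (IntermediateField.lift_le F) hT⟩
  · intro h
    let ι : Type := {F : IntermediateField ℚ L // IsCyclic Gal(L/F)}
    choose ρ hρ using h
    obtain ⟨T, hT, -⟩ := descent (ι := ι) (fun i => IntermediateField.lift i.1) L
      (fun i => IntermediateField.lift_le i.1) (fun σ => by
        obtain ⟨F, hF, hσ⟩ := cyclic_cover L σ
        exact ⟨⟨F, hF⟩, 1, fun x hx => hσ x hx⟩) S hS a (fun q hq hdiv => by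
        refine ⟨fun hqn => ?_, hdet⟩
        obtain ⟨F, hF, -⟩ := cyclic_cover L 1
        have h1 : q ∣ Module.finrank ℚ (IntermediateField.lift F) := hdiv ⟨F, hF⟩
        rw [← (IntermediateField.liftAlgEquiv F).toLinearEquiv.finrank_eq] at h1
        have h2 : q ∣ Module.finrank ℚ L := by
          rw [← Module.finrank_mul_finrank ℚ F L]
          exact h1.mul_right _
        exact Nat.Prime.not_coprime_iff_dvd.2 ⟨q, hq, hqn, h2⟩ hco)
      (fun i => ρ i.1 i.2) (fun i => hρ i.1 i.2)
    exact ⟨T, hT⟩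

end Pool.Agent.Results.MP_ef641d_nt.GaloisDescent
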