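import Pool.Agent.N210.IC.Gld

/-!
# Forms on `GL_2` with integral Hecke eigenvalues are solvable polyhedral or icosahedral

Let `K` be a number field and `π` a cuspidal automorphic representation of `GL_2(𝔸_K)` with trivial central
character which is not of dihedral, tetrahedral or octahedral type; there is no condition at infinity (for `K = ℚ`:
Maass forms of any eigenvalue). For the unramified places `v` let `a_v = α_v + α_v⁻¹` be the trace of the (unitary)
Satake parameter; put `a_v = 0` at the ramified places. Suppose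

  the `a_v` are algebraic integers of some number field `L`, and for each embedding `σ : L → ℂ` there is a cuspidal
  `π^σ` of the same kind with the Hecke eigenvalues `σ(a_v)`.

**Theorem.** Then the field `ℚ(a_v : v)` is exactly `ℚ(√5)`; at EVERY place `a_v` is a rational integer or one of
`(±1 ± √5)/2`; and the `a_v` are distributed exactly as the traces of the elements of the binary icosahedral group
`SL_2(𝔽_5)` (of order 120): the values `0`, `1`, `-1`, `2`, `-2` and each of the four numbers `(±1 ± √5)/2` have
the Dirichlet densities `1/4`, `1/6`, `1/6`, `1/120`, `1/120` and `1/10`. In particular such a `π` does not exist if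
`√5 ∉ L`: then integral forms are of dihedral, tetrahedral or octahedral type.

The form itself enters only through `CuspidalConjugates`, known facts: `Sym^i π^σ` is automorphic and cuspidal for
`i ≤ 4` (Gelbart-Jacquet, Kim-Shahidi, Kim), and the Rankin-Selberg theory of Jacquet-Piatetski-Shapiro-Shalika and
Shahidi, with the bound of Kim-Sarnak and Blomer-Brumley.

Sarnak treated `L = ℚ`, Brumley quadratic fields `L`. The proof for arbitrary `L` uses the arithmetic of the
conjugates of `a_v²` and the inequality between the arithmetic and geometric means (as in the theorem of Burnside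
and its relatives for finite groups): if `a_v⁴ - 3 a_v² + 1` never vanishes then its mean square over all
conjugates, which is the eighth moment statement, is minimal, and `a_v² ∈ {0, 1, 2, 3}` for almost all `v`, which
contradicts the orthogonality of `Sym³ π^σ` and `π^τ`. So `√5 ∈ ℚ(a_v²)`. An auxiliary inequality and the second
and third moments give `[ℚ(a_v²) : ℚ] ≤ 3`, so the degree is 2, and there the moments determine the law.
-/

set_option autoImplicit false

open Filter Topology NumberField IsDedekindDomain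

namespace Pool.Agent.Results.MP_ef641d_nt.IntegralFormsAreIcosahedral

/-- the trace of the `n`-th symmetric power of `diag(α, α⁻¹)` as a polynomial in `x = α + α⁻¹` -/
noncomputable def symTrace (x : ℝ) : ℕ → ℝ
  | 0 => 1
  | 1 => x
  | (n + 2) => x * symTrace x (n + 1) - symTrace x n

variable {K : Type*} [Field K] [NumberField K] {L : Type*} [Field L] [NumberField L]

/-- `∑_v g(v) N(v)^{-s}` converges for real `s > 1`, and it is `(m + o(1)) log (1/(s-1))` for `s → 1+` -/
def HasDirichletMean (g : HeightOneSpectrum (𝓞 K) → ℝ) (m : ℝ) : Prop :=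
  (∀ s : ℝ, 1 < s → Summable fun v => g v * (Ideal.absNorm v.asIdeal : ℝ) ^ (-s)) ∧
  Tendsto (fun s : ℝ => (∑' v, g v * (Ideal.absNorm v.asIdeal : ℝ) ^ (-s)) / Real.log (1 / (s - 1)))
    (𝓝[>] 1) (𝓝 m)

/-- `S` has the Dirichlet density `δ` -/
def HasDensity (S : Set (HeightOneSpectrum (𝓞 K))) (δ : ℝ) : Prop :=
  HasDirichletMean (S.indicator fun _ => 1) δ

/-- What is used of the forms `π^σ` with the Hecke eigenvalues `σ(a_v)`: they are real, `Sym^i π^σ` is cuspidal for
`i ≤ 4`, and by Rankin-Selberg the mean of the product of the traces of two cuspidal representations is `1` if they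
are equal and `0` if they are different. -/
structure CuspidalConjugates (a : HeightOneSpectrum (𝓞 K) → L) : Prop where
  /-- trivial central character, unitary: the Hecke eigenvalues are real -/
  real : ∀ (σ : L →+* ℂ) (v : HeightOneSpectrum (𝓞 K)), (σ (a v)).im = 0
  /-- `Sym^i π^σ`, `i ≤ 4`, with itself -/
  self : ∀ (σ : L →+* ℂ) (i : ℕ), i ≤ 4 → HasDirichletMean (fun v => symTrace (σ (a v)).re i ^ 2) 1
  /-- `Sym^i π^σ` and `Sym^j π^τ` if `i ≠ j` or if they differ at some place -/
  orth : ∀ (σ τ : L →+* ℂ) (i j : ℕ), i ≤ 4 → j ≤ 4 →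
    (i ≠ j ∨ ∃ v, symTrace (σ (a v)).re i ≠ symTrace (τ (a v)).re j) →
    HasDirichletMean (fun v => symTrace (σ (a v)).re i * symTrace (τ (a v)).re j) 0

theorem symTrace_eq (x : ℝ) : ∀ n, symTrace x n = Pool.Agent.N210.IC.U x n
  | 0 => rfl
  | 1 => rfl
  | (n + 2) => by
    change x * symTrace x (n + 1) - symTrace x n =
      x * Pool.Agent.N210.IC.U x (n + 1) - Pool.Agent.N210.IC.U x n
    rw [symTrace_eq x (n + 1), symTrace_eq x n]

theorem toMean {g : HeightOneSpectrum (𝓞 K) → ℝ} {m : ℝ} (h : HasDirichletMean g m) :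
    Pool.Agent.N210.IC.HasMean (fun v => (Ideal.absNorm v.asIdeal : ℝ)) g m := ⟨h.1, h.2⟩

theorem ofMean {S : Set (HeightOneSpectrum (𝓞 K))} {m : ℝ}
    (h : Pool.Agent.N210.IC.HasMean (fun v => (Ideal.absNorm v.asIdeal : ℝ))
      (Pool.Agent.N210.IC.ind S) m) : HasDensity S m := ⟨h.1, h.2⟩

/-- **Integral forms on `GL_2` are solvable polyhedral or icosahedral.** -/
theorem result (a : HeightOneSpectrum (𝓞 K) → L) (integral : ∀ v, IsIntegral ℤ (a v))
    (cusp : CuspidalConjugates a) :
    (Module.finrank ℚ (IntermediateField.adjoin ℚ (Set.range a)) = 2 ∧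
      ∃ r ∈ IntermediateField.adjoin ℚ (Set.range a), r ^ 2 = 5) ∧
    (∀ v, (∃ n : ℤ, a v = n) ∨ ∃ r : L, r ^ 2 = 5 ∧ (a v = (1 + r) / 2 ∨ a v = -((1 + r) / 2))) ∧
    HasDensity {v | a v = 0} (1 / 4) ∧
    HasDensity {v | a v = 1} (1 / 6) ∧ HasDensity {v | a v = -1} (1 / 6) ∧
    HasDensity {v | a v = 2} (1 / 120) ∧ HasDensity {v | a v = -2} (1 / 120) ∧
    ∀ r : L, r ^ 2 = 5 → HasDensity {v | a v = (1 + r) / 2} (1 / 10) ∧
      HasDensity {v | a v = -((1 + r) / 2)} (1 / 10) := by
  have h : Pool.Agent.N210.IC.Sys (fun v : HeightOneSpectrum (𝓞 K) =>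
      (Ideal.absNorm v.asIdeal : ℝ)) a := by
    refine ⟨fun v => Nat.cast_nonneg _, integral, fun σ v => cusp.real σ.toRingHom v,
      fun σ i hi => ?_, fun σ τ i j hi hj hne => ?_⟩
    · refine (toMean (cusp.self σ.toRingHom i hi)).congr fun v => ?_
      rw [symTrace_eq]
      rfl
    · refine (toMean (cusp.orth σ.toRingHom τ.toRingHom i j hi hj ?_)).congr fun v => ?_
      · rcases hne with hne | ⟨v, hv⟩
        · exact Or.inl hne
        · refine Or.inr ⟨v, ?_⟩
          rw [symTrace_eq, symTrace_eq]
          exact hv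
      · rw [symTrace_eq, symTrace_eq]
        rfl
  obtain ⟨-, hf, r, hr⟩ := h.hecke
  refine ⟨⟨hf, r, r.2, ?_⟩, fun v => ?_, ofMean h.dens.1, ofMean h.dens_one.1, ofMean h.dens_one.2,
    ofMean h.dens_two.1, ofMean h.dens_two.2, fun r hr => ⟨ofMean (h.dens_gold hr).1,
    ofMean (h.dens_gold hr).2⟩⟩
  · have h1 := congrArg (Pool.Agent.N210.IC.HF a).val hr
    rw [map_pow, map_ofNat] at h1
    exact h1
  · rcases h.everywhere v with h1 | h1
    · exact Or.inl h1
    · right
      have h2 : (a v ^ 2 - a v - 1) * (a v ^ 2 + a v - 1) = 0 := by linear_combination h1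
      rcases mul_eq_zero.1 h2 with h3 | h3
      · refine ⟨2 * a v - 1, ?_, Or.inl ?_⟩
        · linear_combination 4 * h3
        · ring
      · refine ⟨-2 * a v - 1, ?_, Or.inr ?_⟩
        · linear_combination 4 * h3
        · ring

end Pool.Agent.Results.MP_ef641d_nt.IntegralFormsAreIcosahedral
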