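import Pool.Agent.N210.FX.Main

/-!
# Automorphic forms whose Hecke traces are real combinations of Artin traces

Let `π` be a self-dual (isobaric) automorphic representation of `GL_n(𝔸_ℚ)` and `ρ_j`, `j ∈ ι`, finitely many
self-dual complex representations of the absolute Galois group of `ℚ` (finite image, any dimension, not known to be
automorphic; `ρ ⊕ ρ^∨` is allowed). Suppose that for all primes `p` outside a finite set

  `a_p(π) = ∑_j c_j tr ρ_j(Frob_p)`     with fixed REAL numbers `c_j`;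

that is: `a_p(π) = f(Frob_p)` for a real class function `f` with `f(g) = f(g⁻¹)` on a finite Galois group. Only the
traces at the primes themselves are given. If `n = 2` nothing else is assumed (`π` can be any Maass form; neither
the Ramanujan bound nor an algebraicity is assumed); if `n ≠ 2` the Satake parameters are assumed to be bounded.

**Theorem.** Then `π` looks like a representation of Galois type:
* at infinity: all the parameters of the gamma factor of `π` are `0` or `1` (a Maass form on `GL_2` has Laplace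
  eigenvalue `1/4`, a holomorphic one has weight one);
* the Satake parameters of `π` are roots of unity outside a finite set of primes (Ramanujan);
* there are integers `M > 0` and `m_j` with `L(s, π)^M = ∏_j L(s, ρ_j)^{m_j}`, Euler factor by Euler factor outside
  a finite set of primes, and gamma factor by gamma factor.

The theorem is stated for arbitrary self-dual `L`-functions `L_j` with bounded local parameters in place of the
Artin `L`-functions (for instance of tempered automorphic representations, or a mixture): a real linear relation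
between the TRACES at almost all primes holds with multiplicities for all the local parameters at almost all primes
and at infinity, and comes from relations with integral coefficients. The `L`-functions of representations over a
number field are allowed: there `a_p` is the sum over the places of degree one above `p`.

Idea: `∑ c_j L'/L` is holomorphic for `Re s > 1/2`, its residues on `Re s = 1/2` are square summable, and with the
functional equation all its Dirichlet coefficients vanish (no Rankin-Selberg theory, which is not known for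
`π × ρ_j`). Then the combination of the gamma factors is compared.
-/

set_option autoImplicit false

open Filter Topology

namespace Pool.Agent.Results.MP_ef641d_nt.TracesFromArtin

/-- `∏_{m ∈ μ} Γ_ℝ(s + m)⁻¹`, `Γ_ℝ(s) = π^{-s/2} Γ(s/2)` -/
noncomputable def invGamma (μ : List ℂ) (s : ℂ) : ℂ := (μ.map fun m => (Complex.Gammaℝ (s + m))⁻¹).prod

/-- `∏_{(p, b) ∈ l} (1 - b p^{-s})` -/
noncomputable def finEuler (l : List (ℕ × ℂ)) (s : ℂ) : ℂ :=
  (l.map fun x => 1 - x.2 * (x.1 : ℂ) ^ (-s)).prod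

/-- What is used of a self-dual `L`-function `N/D` of degree `n` with the Euler product
`∏_{p ∉ S} ∏_{i < n} (1 - α_{p,i} p^{-s})⁻¹` and the gamma factor `∏_{m ∈ μ} Γ_ℝ(s + m)`. -/
structure LFunction (S : Finset ℕ) (n : ℕ) (α : ℕ → ℕ → ℂ) (μ : List ℂ) (N D : ℂ → ℂ) : Prop where
  /-- `N` is entire -/
  entire_N : Differentiable ℂ N
  /-- `D` is entire -/
  entire_D : Differentiable ℂ D
  /-- `N` and `D` are of order at most `3/2` -/
  order : ∃ C : ℝ, ∀ s, ‖N s‖ ≤ Real.exp (C * (1 + ‖s‖) ^ (3 / 2 : ℝ)) ∧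
    ‖D s‖ ≤ Real.exp (C * (1 + ‖s‖) ^ (3 / 2 : ℝ))
  /-- `D` has no zeros in `Re s > 1` -/
  ne_zero : ∀ s : ℂ, 1 < s.re → D s ≠ 0
  /-- the Euler products over `p < X` converge to `N/D` in `Re s > 1` -/
  euler : ∀ s : ℂ, 1 < s.re → Tendsto (fun X : ℕ =>
    ∏ p ∈ (Finset.range X).filter (fun p => p.Prime ∧ p ∉ S),
      ∏ i ∈ Finset.range n, (1 - α p i * (p : ℂ) ^ (-s))⁻¹) atTop (𝓝 (N s / D s))
  /-- functional equation: with
  `Λ(s) = q^s · (invGamma μ s)⁻¹ · finEuler l' s / finEuler l s · N s / D s` it says `Λ(s) = ε Λ(1 - s)`;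
  `l`, `l'` are the Euler factors at the primes in `S` -/
  functional : ∃ (l l' : List (ℕ × ℂ)) (q : ℝ) (ε : ℂ), 0 < q ∧ ε ≠ 0 ∧
    (∀ x ∈ l, x.1.Prime ∧ x.1 ∈ S) ∧ (∀ x ∈ l', x.1.Prime ∧ x.1 ∈ S) ∧
    ∀ s, (q : ℂ) ^ s * invGamma μ (1 - s) * finEuler l (1 - s) * finEuler l' s * (N s * D (1 - s)) =
      ε * (q : ℂ) ^ (1 - s) * invGamma μ s * finEuler l s * finEuler l' (1 - s) *
        (N (1 - s) * D s)
  /-- the archimedean parameters have real part `> -1/2` -/
  re_gt : ∀ m ∈ μ, -(1 / 2 : ℝ) < m.re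

/-- the number of `i < n` with `b i = z` -/
noncomputable def mult (n : ℕ) (b : ℕ → ℂ) (z : ℂ) : ℕ :=
  open Classical in ((Finset.range n).filter fun i => b i = z).card

/-- the number of entries of `μ` equal to `z` -/
noncomputable def multInfty (μ : List ℂ) (z : ℂ) : ℕ :=
  open Classical in (μ.map fun m => if m = z then 1 else 0).sum

/-- **Traces that are real combinations of Artin traces.** -/
theorem result {ι : Type*} [Fintype ι] {S : Finset ℕ} {n₀ : ℕ} {α : ℕ → ℕ → ℂ} {μ₀ : List ℂ}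
    {N₀ D₀ : ℂ → ℂ} {n : ι → ℕ} {β : ι → ℕ → ℕ → ℂ} {μ : ι → List ℂ} {N D : ι → ℂ → ℂ}
    {c : ι → ℝ}
    (hπ : LFunction S n₀ α μ₀ N₀ D₀)
    (hL : ∀ j, LFunction S (n j) (β j) (μ j) (N j) (D j))
    (hB : ∃ B : ℝ, ∀ j, ∀ p : ℕ, p.Prime → p ∉ S → ∀ i < n j, ‖β j p i‖ ≤ B)
    (hB₀ : (n₀ = 2 ∧ ∀ p : ℕ, p.Prime → p ∉ S → ‖α p 0 * α p 1‖ = 1) ∨
      ∃ B : ℝ, ∀ p : ℕ, p.Prime → p ∉ S → ∀ i < n₀, ‖α p i‖ ≤ B)
    (htr : ∀ p : ℕ, p.Prime → p ∉ S → ∑ i ∈ Finset.range n₀, α p i =
      ∑ j, (c j : ℂ) * ∑ i ∈ Finset.range (n j), β j p i) :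
    ∃ T : Finset ℕ,
      -- the relation holds for the multiplicities of the local parameters and at infinity
      (∀ p : ℕ, p.Prime → p ∉ T → ∀ z : ℂ, z ≠ 0 →
        (mult n₀ (α p) z : ℝ) = ∑ j, c j * (mult (n j) (β j p) z : ℝ)) ∧
      (∀ z : ℂ, (multInfty μ₀ z : ℝ) = ∑ j, c j * (multInfty (μ j) z : ℝ)) ∧
      -- relations with integral coefficients
      (∃ (M : ℕ) (m : ι → ℤ), 0 < M ∧
        (∀ p : ℕ, p.Prime → p ∉ T → ∀ z : ℂ, z ≠ 0 →
          (M * mult n₀ (α p) z : ℤ) = ∑ j, m j * (mult (n j) (β j p) z : ℤ)) ∧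
        ∀ z : ℂ, (M * multInfty μ₀ z : ℤ) = ∑ j, m j * (multInfty (μ j) z : ℤ)) ∧
      -- if the `L_j` are Artin `L`-functions then `π` is tempered and of Galois type at infinity
      ((∀ j, ∀ p : ℕ, p.Prime → p ∉ S → ∀ i < n j, β j p i = 0 ∨ ∃ k > 0, β j p i ^ k = 1) →
        ∀ p : ℕ, p.Prime → p ∉ T → ∀ i < n₀, α p i = 0 ∨ ∃ k > 0, α p i ^ k = 1) ∧
      ((∀ j, ∀ m ∈ μ j, m = 0 ∨ m = 1) → ∀ m ∈ μ₀, m = 0 ∨ m = 1) := by
  obtain ⟨T, hST, h1, h2, h3⟩ := Pool.Agent.N210.FX.main_pi (c := c)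
    ⟨hπ.entire_N, hπ.entire_D, hπ.order, hπ.ne_zero, hπ.euler, hπ.functional⟩
    (fun j => ⟨(hL j).entire_N, (hL j).entire_D, (hL j).order, (hL j).ne_zero, (hL j).euler,
      (hL j).functional⟩) hπ.re_gt (fun j => (hL j).re_gt) hB hB₀.symm htr
  refine ⟨T, h1, h2, h3, fun hA p hp hpT i hi => ?_, fun hA m hm => ?_⟩
  · by_cases h0 : α p i = 0
    · exact Or.inl h0
    · right
      have h4 := h1 p hp hpT (α p i) h0
      have h5 : 0 < Pool.Agent.N210.FX.mult n₀ (α p) (α p i) :=
        Pool.Agent.N210.FX.mult_pos.2 ⟨i, hi, rfl⟩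
      have h6 : ∑ j, c j * (Pool.Agent.N210.FX.mult (n j) (β j p) (α p i) : ℝ) ≠ 0 := by
        rw [← h4]
        exact_mod_cast h5.ne'
      obtain ⟨j, -, hj⟩ := Finset.exists_ne_zero_of_sum_ne_zero h6
      have h7 : 0 < Pool.Agent.N210.FX.mult (n j) (β j p) (α p i) := by
        rcases Nat.eq_zero_or_pos (Pool.Agent.N210.FX.mult (n j) (β j p) (α p i)) with h8 | h8
        · rw [h8] at hj
          simp at hj
        · exact h8
      obtain ⟨i', hi', he⟩ := Pool.Agent.N210.FX.mult_pos.1 h7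
      rcases hA j p hp (fun h => hpT (hST h)) i' hi' with h8 | h8
      · exact absurd (he ▸ h8) h0
      · rwa [he] at h8
  · have h4 := h2 m
    have h5 : 0 < Pool.Agent.N210.FX.cnt μ₀ m := Pool.Agent.N210.FX.cnt_pos.2 hm
    have h6 : ∑ j, c j * (Pool.Agent.N210.FX.cnt (μ j) m : ℝ) ≠ 0 := by
      rw [← h4]
      exact_mod_cast h5.ne'
    obtain ⟨j, -, hj⟩ := Finset.exists_ne_zero_of_sum_ne_zero h6
    have h7 : 0 < Pool.Agent.N210.FX.cnt (μ j) m := by
      rcases Nat.eq_zero_or_pos (Pool.Agent.N210.FX.cnt (μ j) m) with h8 | h8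
      · rw [h8] at hj
        simp at hj
      · exact h8
    exact hA j m (Pool.Agent.N210.FX.cnt_pos.1 h7)

end Pool.Agent.Results.MP_ef641d_nt.TracesFromArtin
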